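import Pool.Agent.Helper61.QE.St4

/-!
Project QD, PART E, module HOT: the Grunsky kernel of the conformal maps `f_t` is holomorphic in
the parameter `t`.
-/

open MeasureTheory Set Filter Topology Complex
open scoped ContDiff ComplexConjugate ENNReal

namespace Pool.Agent.Helper40.QE

open Pool.Agent.Helper68.QC Pool.Agent.Helper61.QE

/-- monotonicity of the bound -/
theorem bel_mono {k k' : ℝ} {μ : ℂ → ℂ} (h : Bel k μ) (hk : k ≤ k') : Bel k' μ :=
  ⟨h.meas, fun z => (h.le z).trans hk⟩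

/-- the Grunsky kernel of a holomorphic family of injective maps is holomorphic in `t` -/
theorem dKern_holo {f : ℂ → ℂ → ℂ}
    (hf : ∀ z ∈ D, DifferentiableOn ℂ (fun t => f t z) D)
    (hd : ∀ z ∈ D, DifferentiableOn ℂ (fun t => deriv (f t) z) D)
    (hi : ∀ t ∈ D, InjOn (f t) D) :
    ∀ z ∈ D, ∀ ζ ∈ D, DifferentiableOn ℂ (fun t => dKern (f t) z ζ) D := by
  intro z hz ζ hζ
  by_cases hzζ : z = ζ
  · have h0 : (fun t => dKern (f t) z ζ) = fun _ => (0 : ℂ) := by
      funext t
      rw [hzζ]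
      simp [dKern]
    rw [h0]
    exact differentiableOn_const 0
  · unfold dKern
    refine DifferentiableOn.sub (DifferentiableOn.div ((hd z hz).mul (hd ζ hζ))
      (((hf z hz).sub (hf ζ hζ)).pow 2) ?_) (differentiableOn_const _)
    intro t ht
    exact pow_ne_zero 2 (sub_ne_zero.mpr fun he => hzζ (hi t ht hz hζ he))

/-- the Grunsky kernel of a continuous map is measurable -/
theorem dKern_meas {f : ℂ → ℂ} (hf : Continuous f) :
    Measurable (fun x : ℂ × ℂ => dKern f x.2 x.1) := by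
  have hd : Measurable (deriv f) := measurable_deriv f
  unfold dKern
  refine Measurable.sub (Measurable.div ((hd.comp measurable_snd).mul (hd.comp measurable_fst))
    (((hf.measurable.comp measurable_snd).sub (hf.measurable.comp measurable_fst)).pow_const 2))
    (Measurable.div measurable_const ((measurable_snd.sub measurable_fst).pow_const 2))

theorem pHOT (hHOL : Pool.Agent.Helper68.QC.StHOL) (hGRO : Pool.Agent.Helper68.QC.StGRO)
    (hEDD : Pool.Agent.Helper61.QE.StEDD) (hCOE : Pool.Agent.Helper61.QE.StCOE)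
    (hRIE : Pool.Agent.Helper61.QE.StRIE) (hHDV : Pool.Agent.Helper61.QE.StHDV) :
    Pool.Agent.Helper61.QE.StHOT := by
  intro Γ _ s F h κ k hFu hFD hAb hk hKap
  have hk0 : 0 ≤ k := le_trans (norm_nonneg _) (hKap.bel.le 0)
  obtain ⟨c1, _, c3, _, c5, _⟩ := hCOE Γ s h κ k hFu.su ⟨hAb.hol, hAb.eqv⟩ hk0 hKap
  obtain ⟨e1, _, _, _, _, _, _⟩ := hEDD k hk (syY κ) c3 c5
  obtain ⟨_, hR⟩ := hRIE Γ s F h κ k hFu hFD hAb hk hKap
  -- holomorphic in `t`
  have hholo : ∀ z, DifferentiableOn ℂ (fun t => ft κ h t z) D := by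
    intro z t₀ ht₀
    have ht₀' : ‖t₀‖ < 1 := by simpa using ht₀
    obtain ⟨ρ, hρ1, hρ2⟩ := exists_between ht₀'
    have hmem : t₀ ∈ Metric.ball (0 : ℂ) ρ := by simpa using hρ1
    have hdiff := hHOL (max k ρ) (max_lt hk hρ2) (Metric.ball (0 : ℂ) ρ)
      (fun t => muT κ h t) Metric.isOpen_ball (by
        intro t ht
        have ht' : ‖t‖ < ρ := by simpa using ht
        exact bel_mono (c1 t).1 (max_le_max le_rfl ht'.le)) (by
        intro w
        unfold muT
        fun_prop) ((nq (syY κ)).symm z)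
    have hat : DifferentiableAt ℂ (fun t => nq (muT κ h t) ((nq (syY κ)).symm z)) t₀ :=
      (hdiff t₀ hmem).differentiableAt (Metric.isOpen_ball.mem_nhds hmem)
    exact hat.differentiableWithinAt
  -- bounds
  have hbd : ∀ ρ < 1, ∃ C : ℝ, ∀ t z : ℂ, ‖t‖ ≤ ρ → ‖z‖ ≤ ρ → ‖ft κ h t z‖ ≤ C := by
    intro ρ hρ
    obtain ⟨M, hM⟩ := hGRO (max k ρ) (max_lt hk hρ) 1
    refine ⟨M, fun t z ht hz => ?_⟩
    have hzD : z ∈ D := by
      simp only [Metric.mem_ball, dist_zero_right]
      exact lt_of_le_of_lt hz hρ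
    rw [← e1] at hzD
    obtain ⟨w, hw, hwz⟩ := hzD
    have hsy : (nq (syY κ)).symm z = w := by
      rw [← hwz]
      exact (nq (syY κ)).symm_apply_apply w
    have hw1 : ‖w‖ < 1 := by simpa using hw
    unfold ft
    rw [hsy]
    exact (hM (muT κ h t) (bel_mono (c1 t).1 (max_le_max le_rfl ht)) w hw1.le).1
  have hder := hHDV (ft κ h) (fun t ht => (hR t ht).1) (fun z _ => hholo z) hbd
  refine ⟨dKern_holo (fun z _ => hholo z) hder (fun t ht => (hR t ht).2.1), ?_⟩
  intro t ht
  exact dKern_meas (hR t ht).2.2.2.2.2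

end Pool.Agent.Helper40.QE
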