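import Pool.Agent.Helper61.QE.St1

/-!
# Project QD, part E, module PGH: the map seen from infinity
-/

open MeasureTheory Set Filter Topology Complex
open scoped ContDiff ComplexConjugate ENNReal

namespace Pool.Agent.Helper40.QE

open Pool.Agent.Helper68.QC Pool.Agent.Helper61.QE

theorem PG_comp (F G : ℂ → ℂ) : PG (fun z => F (G z)) = fun u => PG F (PG G u) := by
  funext u
  simp [PG]

theorem PG_zero {G : ℂ → ℂ} (h0 : G 0 = 0) : PG G 0 = 0 := by
  simp [PG, h0]

theorem PG_cont (G : ℂ ≃ₜ ℂ) (h0 : G 0 = 0) : Continuous (PG G) := by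
  rw [continuous_iff_continuousAt]
  intro u
  by_cases hu : u = 0
  · subst hu
    rw [continuousAt_iff_punctured_nhds, PG_zero h0]
    have h1 : Tendsto (fun u : ℂ => u⁻¹) (𝓝[≠] 0) (Bornology.cobounded ℂ) :=
      tendsto_inv₀_nhdsNE_zero
    have h2 : Tendsto G (Bornology.cobounded ℂ) (Bornology.cobounded ℂ) := by
      rw [Metric.cobounded_eq_cocompact]
      exact G.isClosedEmbedding.tendsto_cocompact
    exact (tendsto_inv₀_cobounded.comp h2).comp h1
  · have h1 : G u⁻¹ ≠ 0 := by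
      intro h
      rw [← h0] at h
      exact (inv_ne_zero hu) (G.injective h)
    exact ContinuousAt.inv₀ (G.continuous.continuousAt.comp (continuousAt_inv₀ hu)) h1

/-- the numerator of a Möbius map -/
def nm (A : SL) (z : ℂ) : ℂ := A 0 0 * z + A 0 1

theorem det_id (A : SL) : A 0 0 * A 1 1 - A 0 1 * A 1 0 = 1 := by
  have h := A.det_coe
  rwa [Matrix.det_fin_two] at h

theorem nm_ne {A : SL} {z : ℂ} (h : den A z = 0) : nm A z ≠ 0 := by
  intro h1
  have hd := det_id A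
  unfold den at h
  unfold nm at h1
  have : (1 : ℂ) = 0 := by linear_combination (-1 : ℂ) * hd + (A 0 0) * h - (A 1 0) * h1
  exact one_ne_zero this

theorem mob_eq (A : SL) (z : ℂ) : mob A z = nm A z / den A z := rfl

theorem jj00 (A : SL) : jj A 0 0 = A 1 1 := by simp [jj]
theorem jj01 (A : SL) : jj A 0 1 = A 1 0 := by simp [jj]
theorem jj10 (A : SL) : jj A 1 0 = A 0 1 := by simp [jj]
theorem jj11 (A : SL) : jj A 1 1 = A 0 0 := by simp [jj]

theorem den_jj {A : SL} {z : ℂ} (hz : z ≠ 0) : den (jj A) z⁻¹ = z⁻¹ * nm A z := by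
  unfold den nm
  rw [jj10, jj11]
  field_simp
  ring

theorem nm_jj {A : SL} {z : ℂ} (hz : z ≠ 0) : nm (jj A) z⁻¹ = z⁻¹ * den A z := by
  unfold den nm
  rw [jj00, jj01]
  field_simp
  ring

theorem mob_jj {A : SL} {z : ℂ} (hz : z ≠ 0) : mob (jj A) z⁻¹ = (mob A z)⁻¹ := by
  rw [mob_eq, mob_eq, den_jj hz, nm_jj hz, inv_div, mul_div_mul_left _ _ (inv_ne_zero hz)]

theorem nm_iff {A B : SL} {G : ℂ ≃ₜ ℂ} (h0 : G 0 = 0) (h : Intw A B G) (y : ℂ) :
    nm A y = 0 ↔ nm B (G y) = 0 := by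
  obtain ⟨h1, h2, -, -⟩ := h
  by_cases hd : den A y = 0
  · have hd' := (h1 y).1 hd
    exact ⟨fun h3 => absurd h3 (nm_ne hd), fun h3 => absurd h3 (nm_ne hd')⟩
  · have hd' : den B (G y) ≠ 0 := fun h3 => hd ((h1 y).2 h3)
    have h3 := h2 y hd
    rw [mob_eq, mob_eq] at h3
    constructor
    · intro h4
      rw [h4, zero_div, h0] at h3
      exact (div_eq_zero_iff.1 h3.symm).resolve_right hd'
    · intro h4
      rw [h4, zero_div, ← h0] at h3
      exact (div_eq_zero_iff.1 (G.injective h3)).resolve_right hd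

theorem a_iff {A B : SL} {G : ℂ ≃ₜ ℂ} (h0 : G 0 = 0) (h : Intw A B G) :
    A 0 0 = 0 ↔ B 0 0 = 0 := by
  obtain ⟨-, -, h3, h4⟩ := h
  have hA := det_id A
  have hB := det_id B
  by_cases hc : A 1 0 = 0
  · have hc' := h3.1 hc
    constructor
    · intro h5
      rw [hc, h5] at hA
      simp at hA
    · intro h5
      rw [hc', h5] at hB
      simp at hB
  · have hc' : B 1 0 ≠ 0 := fun h5 => hc (h3.2 h5)
    have h5 := h4 hc
    constructor
    · intro h6
      rw [h6, zero_div, h0] at h5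
      exact (div_eq_zero_iff.1 h5.symm).resolve_right hc'
    · intro h6
      rw [h6, zero_div, ← h0] at h5
      exact (div_eq_zero_iff.1 (G.injective h5)).resolve_right hc

theorem intw_jj {A B : SL} {G : ℂ ≃ₜ ℂ} (h0 : G 0 = 0) (h : Intw A B G) :
    Intw (jj A) (jj B) (PG G) := by
  have hGne : ∀ {y : ℂ}, y ≠ 0 → G y ≠ 0 := by
    intro y hy h1
    rw [← h0] at h1
    exact hy (G.injective h1)
  have hP : ∀ y : ℂ, PG G y⁻¹ = (G y)⁻¹ := by
    intro y
    simp [PG]
  obtain ⟨h1, h2, h3, h4⟩ := id h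
  refine ⟨?_, ?_, ?_, ?_⟩
  · -- first clause
    intro z
    by_cases hz : z = 0
    · subst hz
      rw [PG_zero h0]
      unfold den
      rw [mul_zero, mul_zero, zero_add, zero_add, jj11, jj11]
      exact a_iff h0 h
    · obtain ⟨y, hy, rfl⟩ : ∃ y : ℂ, y ≠ 0 ∧ z = y⁻¹ := ⟨z⁻¹, inv_ne_zero hz, (inv_inv z).symm⟩
      rw [hP, den_jj hy, den_jj (hGne hy), mul_eq_zero, mul_eq_zero,
        or_iff_right (inv_ne_zero hy), or_iff_right (inv_ne_zero (hGne hy))]
      exact nm_iff h0 h y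
  · -- second clause
    intro z hz1
    by_cases hz : z = 0
    · subst hz
      rw [PG_zero h0, mob_eq, mob_eq]
      unfold nm den
      rw [mul_zero, mul_zero, zero_add, zero_add, jj01, jj11, mul_zero, mul_zero, zero_add,
        zero_add, jj01, jj11]
      by_cases hc : A 1 0 = 0
      · rw [hc, h3.1 hc, zero_div, zero_div, PG_zero h0]
      · have h5 : A 1 0 / A 0 0 = (A 0 0 / A 1 0)⁻¹ := (inv_div _ _).symm
        rw [h5, hP, h4 hc, inv_div]
    · obtain ⟨y, hy, rfl⟩ : ∃ y : ℂ, y ≠ 0 ∧ z = y⁻¹ := ⟨z⁻¹, inv_ne_zero hz, (inv_inv z).symm⟩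
      rw [mob_jj hy, hP, hP, mob_jj (hGne hy)]
      by_cases hd : den A y = 0
      · have hd' := (h1 y).1 hd
        rw [mob_eq, mob_eq, hd, hd', div_zero, div_zero, h0]
      · rw [h2 y hd]
  · -- third clause
    rw [jj10, jj10]
    have h5 := nm_iff h0 h 0
    rw [h0] at h5
    unfold nm at h5
    rwa [mul_zero, mul_zero, zero_add, zero_add] at h5
  · -- fourth clause
    intro _
    rw [jj00, jj10, jj00, jj10]
    have h5 : A 1 1 / A 0 1 = (A 0 1 / A 1 1)⁻¹ := (inv_div _ _).symm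
    rw [h5, hP]
    have h6 := h1 0
    have h7 := h2 0
    rw [h0] at h6 h7
    rw [mob_eq, mob_eq] at h7
    unfold den at h6 h7
    unfold nm at h7
    simp only [mul_zero, zero_add] at h6 h7
    by_cases hd : A 1 1 = 0
    · rw [hd, h6.1 hd, div_zero, h0, inv_zero, zero_div]
    · rw [h7 hd, inv_div]

/-- MODULE PGH. -/
theorem pPGH : Pool.Agent.Helper61.QE.StPGH := by
  refine ⟨fun G h0 => ⟨?_, PG_zero h0, fun A B h => intw_jj h0 h⟩, PG_comp⟩
  have h0' : G.symm 0 = 0 := by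
    rw [Homeomorph.symm_apply_eq]
    exact h0.symm
  refine ⟨⟨⟨PG G, PG G.symm, ?_, ?_⟩, PG_cont G h0, PG_cont G.symm h0'⟩, rfl, rfl⟩
  · intro u
    simp [PG]
  · intro u
    simp [PG]

end Pool.Agent.Helper40.QE
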